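import Pool.Agent.H62.ZS.NEAR

/-!
# Page lx, row NZX (general form): the logarithm of the L-function from the primes up to `Q ^ κ`
-/

set_option autoImplicit false

namespace Pool.Agent.H95.LX

open Finset Pool.Agent.H27.ZF Pool.Agent.H62.ZS

/-- the product of the inverses of the local factors of the small primes, times the function, is near `1` -/
theorem near_k (hHTC : T_HTC) (hEPR : T_EPR) (hTAI : T_TAI) (m : ℕ) (d κ C0 : ℝ) (hm : 1 ≤ m)
    (hd : 0 < d) (hd2 : d ≤ 1 / 2) (hκ : 0 < κ) (hC0 : 1 ≤ C0) : ∃ η Q2 : ℝ, 0 < η ∧ 1 ≤ Q2 ∧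
    ∀ (lam : ℕ → ℂ) (q : ℕ → ℕ → ℂ) (L : ℂ → ℂ) (Q t : ℝ), Q2 ≤ Q → Eul m lam q →
    (∀ n : ℕ, 1 ≤ n → ‖lam n‖ ≤ C0 * (n : ℝ) ^ m) → Differentiable ℂ L →
    (∀ s : ℂ, (m : ℝ) + 2 < s.re →
      HasSum (fun n : ℕ => if 1 ≤ n then lam n * (n : ℂ) ^ (-s) else 0) (L s)) →
    (∀ u : ℂ, 1 / 2 + d / 2 ≤ u.re → u.re ≤ 2 * ((m : ℝ) + 6) → |u.im - t| ≤ 2 * ((m : ℝ) + 6) →
      ‖L u‖ ≤ Q ^ η ∧ ‖∏ p ∈ (Finset.range (⌊Q ^ κ⌋₊ + 1)).filter Nat.Prime,
        qv m (q p) ((p : ℂ) ^ (-u))‖ ≤ Q ^ η) →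
    ∀ s : ℂ, 1 / 2 + d ≤ s.re → s.im = t →
      ‖(∏ p ∈ (Finset.range (⌊Q ^ κ⌋₊ + 1)).filter Nat.Prime,
        qv m (q p) ((p : ℂ) ^ (-s))) * L s - 1‖ ≤ 1 / 2 := by
  have hmR : (1 : ℝ) ≤ m := by exact_mod_cast hm
  obtain ⟨w, hw0, hw1, hHT⟩ := hHTC 1 ((m : ℝ) + 6 - 1 / 2 - d) ((m : ℝ) + 6 - 1 / 2 - d / 2)
    one_pos (by linarith) (by linarith)
  obtain ⟨C1, hC1, hT⟩ := hTAI m C0 hC0
  set η : ℝ := w * κ / 4 with hη
  have hη0 : 0 < η := by positivity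
  set K : ℝ := (2 * C1) ^ w * 2 ^ (1 - w) with hK
  have hK0 : 0 < K := by positivity
  -- large `Q`
  set Q2 : ℝ := (2 * K) ^ (2 / (w * κ)) + (4 * C1) ^ (1 / κ) + 1 with hQ2
  have hQ2p : 0 < (2 * K) ^ (2 / (w * κ)) := by positivity
  have hQ3p : 0 < (4 * C1) ^ (1 / κ) := by positivity
  refine ⟨η, Q2, hη0, by linarith, ?_⟩
  intro lam q L Q t hQ hE hl hL hLs hbox s hs hst
  have hQ1' : 1 ≤ Q := by linarith
  have hQ0 : 0 < Q := by linarith
  set z : ℝ := Q ^ κ with hz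
  have hz1 : 1 ≤ z := Real.one_le_rpow hQ1' hκ.le
  have hzlt : 4 * C1 ≤ z := by
    have h1 : (4 * C1) ^ (1 / κ) ≤ Q := by linarith
    have h2 : ((4 * C1) ^ (1 / κ)) ^ κ ≤ z := Real.rpow_le_rpow hQ3p.le h1 hκ.le
    rw [← Real.rpow_mul (by linarith), one_div_mul_cancel hκ.ne', Real.rpow_one] at h2
    exact h2
  set S : Finset ℕ := (Finset.range (⌊z⌋₊ + 1)).filter Nat.Prime with hS
  have hSp : ∀ p ∈ S, p.Prime := fun p hp => (mem_filter.1 hp).2
  have hfl : 1 ≤ ⌊z⌋₊ := Nat.le_floor (by exact_mod_cast hz1)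
  have hfl2 : z / 2 ≤ ⌊z⌋₊ := by
    have h1 := Nat.lt_floor_add_one z
    have h2 : (1 : ℝ) ≤ ⌊z⌋₊ := by exact_mod_cast hfl
    linarith
  -- the function
  set M : ℂ → ℂ := fun s => ∏ p ∈ S, qv m (q p) ((p : ℂ) ^ (-s)) with hM
  set D : ℂ → ℂ := fun s => M s * L s - 1 with hD
  have hDd : Differentiable ℂ D := ((diff_prod m q S hSp).mul hL).sub_const 1
  -- far to the right
  have hfar : ∀ u : ℂ, (m : ℝ) + 4 ≤ u.re → ‖D u‖ ≤ 2 * C1 / z := by
    intro u hu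
    have h1 := hEPR m lam q u S hE hSp (summ_lam m C0 lam hl u.re hu)
    have h2 := (hLs u (by linarith)).tsum_eq
    rw [h2] at h1
    have h3 := hT lam hE.one hl ⌊z⌋₊ hfl u hu
    rw [← h1] at h3
    refine h3.trans ?_
    rw [div_le_div_iff₀ (by linarith) (by linarith)]
    nlinarith
  -- in the box
  have hbx : ∀ u : ℂ, 1 / 2 + d / 2 ≤ u.re → u.re ≤ 2 * ((m : ℝ) + 6) →
      |u.im - t| ≤ 2 * ((m : ℝ) + 6) → ‖D u‖ ≤ 2 * Q ^ (2 * η) := by
    intro u h1 h2 h3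
    obtain ⟨h4, h5⟩ := hbox u h1 h2 h3
    have h7 : ‖D u‖ ≤ ‖M u‖ * ‖L u‖ + 1 := by
      refine (norm_sub_le _ _).trans ?_
      rw [norm_mul, norm_one]
    have h8 : ‖M u‖ * ‖L u‖ ≤ Q ^ η * Q ^ η :=
      mul_le_mul h5 h4 (norm_nonneg _) (by positivity)
    have h9 : Q ^ η * Q ^ η = Q ^ (2 * η) := by
      rw [two_mul, Real.rpow_add hQ0]
    have h10 : 1 ≤ Q ^ (2 * η) := Real.one_le_rpow hQ1' (by positivity)
    linarith
  have hlt : 2 * C1 / z ≤ 1 / 2 := by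
    rw [div_le_iff₀ (by linarith)]
    linarith
  rcases le_or_gt ((m : ℝ) + 4) s.re with hre | hre
  · exact (hfar s hre).trans hlt
  · -- three circles
    set cc : ℂ := ((m : ℝ) + 6 : ℝ) + t * Complex.I with hcc
    have hccre : cc.re = (m : ℝ) + 6 := by simp [hcc]
    have hccim : cc.im = t := by simp [hcc]
    have hM1 : 0 < 2 * C1 / z := by positivity
    have hM3 : 2 * C1 / z ≤ 2 * Q ^ (2 * η) := by
      have : 1 ≤ Q ^ (2 * η) := Real.one_le_rpow hQ1' (by positivity)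
      linarith
    have h1 := hHT D cc (2 * C1 / z) (2 * Q ^ (2 * η)) hDd hM1 hM3
      (fun u hu => by
        have h2 := (Complex.abs_re_le_norm (u - cc)).trans hu
        rw [Complex.sub_re, hccre, abs_le] at h2
        exact hfar u (by linarith [h2.1]))
      (fun u hu => by
        have h2 := (Complex.abs_re_le_norm (u - cc)).trans hu
        have h3 := (Complex.abs_im_le_norm (u - cc)).trans hu
        rw [Complex.sub_re, hccre, abs_le] at h2
        rw [Complex.sub_im, hccim] at h3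
        exact hbx u (by linarith [h2.1]) (by linarith [h2.2]) (by linarith))
      s (by
        have e1 : s - cc = ((s.re - ((m : ℝ) + 6) : ℝ) : ℂ) := by
          apply Complex.ext
          · simp [hcc]
          · simp [hcc, hst]
        rw [e1, Complex.norm_real, Real.norm_eq_abs, abs_le]
        constructor <;> linarith)
    -- the numbers
    have h2 : (2 * C1 / z) ^ w * (2 * Q ^ (2 * η)) ^ (1 - w) ≤ K * Q ^ (-(w * κ / 2)) := by
      have f1 : (2 * C1 / z) ^ w = (2 * C1) ^ w * Q ^ (-(κ * w)) := by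
        rw [Real.div_rpow (by linarith) (by linarith), hz, ← Real.rpow_mul hQ0.le,
          Real.rpow_neg hQ0.le, div_eq_mul_inv]
      have f2 : (2 * Q ^ (2 * η)) ^ (1 - w) = 2 ^ (1 - w) * Q ^ (2 * η * (1 - w)) := by
        rw [Real.mul_rpow (by norm_num) (by positivity), ← Real.rpow_mul hQ0.le]
      rw [f1, f2, hK]
      have e1 : (2 * C1) ^ w * Q ^ (-(κ * w)) * (2 ^ (1 - w) *
          Q ^ (2 * η * (1 - w))) = (2 * C1) ^ w * 2 ^ (1 - w) *
          Q ^ (-(κ * w) + 2 * η * (1 - w)) := by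
        rw [Real.rpow_add hQ0]
        ring
      rw [e1]
      refine mul_le_mul_of_nonneg_left ?_ hK0.le
      refine Real.rpow_le_rpow_of_exponent_le hQ1' ?_
      have e2 : -(κ * w) + 2 * η = -(w * κ / 2) := by
        rw [hη]
        ring
      have e3 : 2 * η * (1 - w) ≤ 2 * η := by nlinarith
      linarith
    have h3 : 2 * K ≤ Q ^ (w * κ / 2) := by
      have h4 : (2 * K) ^ (2 / (w * κ)) ≤ Q := by linarith
      have h5 : ((2 * K) ^ (2 / (w * κ))) ^ (w * κ / 2) ≤ Q ^ (w * κ / 2) :=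
        Real.rpow_le_rpow hQ2p.le h4 (by positivity)
      rw [← Real.rpow_mul (by linarith)] at h5
      have h6 : 2 / (w * κ) * (w * κ / 2) = 1 := by field_simp
      rw [h6, Real.rpow_one] at h5
      exact h5
    have h4 : K * Q ^ (-(w * κ / 2)) ≤ 1 / 2 := by
      rw [Real.rpow_neg hQ0.le, ← div_eq_mul_inv, div_le_iff₀ (by positivity)]
      linarith
    exact (h1.trans h2).trans h4

/-- the logarithm of the L-function from the logarithm of the product over the primes up to `Q ^ κ`, for any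
size `G` -/
theorem log_gen (hHTC : T_HTC) (hEPR : T_EPR) (hTAI : T_TAI) (m : ℕ) (d C0 : ℝ) (hm : 1 ≤ m)
    (hd : 0 < d) (hd2 : d ≤ 1 / 2) (hC0 : 1 ≤ C0) : ∃ B : ℝ, 1 ≤ B ∧ ∀ κ : ℝ, 0 < κ →
    ∃ η : ℝ, 0 < η ∧ ∀ C1 b : ℝ, 0 < C1 → 0 < b → ∃ Q0 : ℝ, 1 ≤ Q0 ∧
    ∀ (lam : ℕ → ℂ) (q : ℕ → ℕ → ℂ) (L : ℂ → ℂ) (Q t : ℝ), Q0 ≤ Q → Eul m lam q →
    (∀ n : ℕ, 1 ≤ n → ‖lam n‖ ≤ C0 * (n : ℝ) ^ m) → Differentiable ℂ L →
    (∀ s : ℂ, (m : ℝ) + 2 < s.re →
      HasSum (fun n : ℕ => if 1 ≤ n then lam n * (n : ℂ) ^ (-s) else 0) (L s)) →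
    ∀ G : ℂ → ℝ, (∀ u, 1 ≤ G u) →
    (∀ u : ℂ, 1 / 2 + d / 2 ≤ u.re → G u ≤ (1 + Real.log Q) ^ (1 - b)) →
    (∀ u : ℂ, 1 / 2 + d / 2 ≤ u.re → u.re ≤ B → |u.im - t| ≤ B → ‖L u‖ ≤ Q ^ η ∧
      0 < ‖∏ p ∈ (Finset.range (⌊Q ^ κ⌋₊ + 1)).filter Nat.Prime,
        qv m (q p) ((p : ℂ) ^ (-u))‖ ∧
      |Real.log ‖∏ p ∈ (Finset.range (⌊Q ^ κ⌋₊ + 1)).filter Nat.Prime,
        qv m (q p) ((p : ℂ) ^ (-u))‖| ≤ C1 * G u) →
    ∀ s : ℂ, 1 / 2 + d ≤ s.re → s.im = t →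
      Real.exp (-((C1 + 1) * G s)) ≤ ‖L s‖ ∧ ‖L s‖ ≤ Real.exp ((C1 + 1) * G s) := by
  have hmR : (1 : ℝ) ≤ m := by exact_mod_cast hm
  obtain ⟨B0, hB0, hF⟩ := far_one m C0 hC0
  set B : ℝ := B0 + 2 * (m + 6) with hB
  refine ⟨B, by linarith, ?_⟩
  intro κ hκ
  obtain ⟨η, Q2, hη, hQ2, hN⟩ := near_k hHTC hEPR hTAI m d κ C0 hm hd hd2 hκ hC0
  refine ⟨η, hη, ?_⟩
  intro C1 b hC1 hb
  set X : ℝ := (2 * C1 / η) ^ (1 / b) with hX
  have hX0 : 0 ≤ X := by positivity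
  refine ⟨Q2 + Real.exp (X + 1), by linarith [Real.exp_pos (X + 1)], ?_⟩
  intro lam q L Q t hQ hE hl hL hLs G hG1 hGb hbox s hs hst
  have hQQ2 : Q2 ≤ Q := by linarith [Real.exp_pos (X + 1)]
  have hQQ3 : Real.exp (X + 1) ≤ Q := by linarith
  have hQ1' : 1 ≤ Q := by linarith
  have hQ0 : 0 < Q := by linarith
  have hlog : X + 1 ≤ Real.log Q := (Real.le_log_iff_exp_le hQ0).2 hQQ3
  have hprod : ∀ u : ℂ, 1 / 2 + d / 2 ≤ u.re → u.re ≤ B → |u.im - t| ≤ B →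
      0 < ‖∏ p ∈ (Finset.range (⌊Q ^ κ⌋₊ + 1)).filter Nat.Prime, qv m (q p) ((p : ℂ) ^ (-u))‖ ∧
      |Real.log ‖∏ p ∈ (Finset.range (⌊Q ^ κ⌋₊ + 1)).filter Nat.Prime,
        qv m (q p) ((p : ℂ) ^ (-u))‖| ≤ C1 * G u := fun u h1 h2 h3 => (hbox u h1 h2 h3).2
  have hbd : ∀ u : ℂ, 1 / 2 + d / 2 ≤ u.re → C1 * G u ≤ η * Real.log Q := by
    intro u hu
    have h2 := hGb u hu
    have h3 : (1 + Real.log Q) ^ (1 - b) = (1 + Real.log Q) / (1 + Real.log Q) ^ b := by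
      rw [Real.rpow_sub (by linarith), Real.rpow_one]
    have h4 : 2 * C1 / η ≤ (1 + Real.log Q) ^ b := by
      have h5 : X ^ b ≤ (1 + Real.log Q) ^ b := Real.rpow_le_rpow hX0 (by linarith) hb.le
      rw [hX, ← Real.rpow_mul (by positivity)] at h5
      have h6 : 1 / b * b = 1 := by field_simp
      rw [h6, Real.rpow_one] at h5
      exact h5
    have h5 : 0 < (1 + Real.log Q) ^ b := Real.rpow_pos_of_pos (by linarith) _
    rw [div_le_iff₀ hη] at h4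
    calc C1 * G u ≤ C1 * ((1 + Real.log Q) / (1 + Real.log Q) ^ b) := by
          rw [← h3]
          exact mul_le_mul_of_nonneg_left h2 hC1.le
      _ = C1 * (1 + Real.log Q) / (1 + Real.log Q) ^ b := by rw [mul_div_assoc]
      _ ≤ η * Real.log Q := by
          rw [div_le_iff₀ h5]
          have h6 : 1 + Real.log Q ≤ 2 * Real.log Q := by linarith
          have h7 : C1 * (1 + Real.log Q) ≤ (2 * C1) * Real.log Q := by nlinarith
          have h8 : (2 * C1) * Real.log Q ≤ ((1 + Real.log Q) ^ b * η) * Real.log Q :=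
            mul_le_mul_of_nonneg_right h4 (by linarith)
          linarith
  have hgs := hG1 s
  have hC1g : C1 * G s + 1 ≤ (C1 + 1) * G s := by nlinarith
  have he2 : Real.exp (-1) ≤ 1 / 2 := by
    rw [Real.exp_neg, one_div]
    refine inv_anti₀ (by norm_num) ?_
    have := Real.add_one_le_exp (1 : ℝ)
    linarith
  have he3 : 3 / 2 ≤ Real.exp 1 := by
    have := Real.add_one_le_exp (1 : ℝ)
    linarith
  rcases le_or_gt s.re B with hsB | hsB
  · have h1 := hN lam q L Q t hQQ2 hE hl hL hLs (fun u h1 h2 h3 => by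
      have h4 := hprod u h1 (by linarith) (by linarith)
      refine ⟨(hbox u h1 (by linarith) (by linarith)).1, ?_⟩
      have h5 := (abs_le.1 h4.2).2.trans (hbd u h1)
      rw [Real.log_le_iff_le_exp h4.1] at h5
      rwa [mul_comm, ← Real.rpow_def_of_pos hQ0] at h5) s hs hst
    obtain ⟨h2, h3⟩ := hprod s (by linarith) hsB (by rw [hst, sub_self, abs_zero]; linarith)
    set M : ℝ := ‖∏ p ∈ (Finset.range (⌊Q ^ κ⌋₊ + 1)).filter Nat.Prime,
      qv m (q p) ((p : ℂ) ^ (-s))‖ with hM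
    set G : ℝ := C1 * G s with hG
    have h4 : M ≤ Real.exp G := by
      rw [← Real.log_le_iff_le_exp h2]
      exact (abs_le.1 h3).2
    have h5 : Real.exp (-G) ≤ M := by
      rw [← Real.le_log_iff_exp_le h2]
      exact (abs_le.1 h3).1
    have h6 : 1 / 2 ≤ M * ‖L s‖ ∧ M * ‖L s‖ ≤ 3 / 2 := by
      rw [hM, ← norm_mul]
      set w : ℂ := (∏ p ∈ (Finset.range (⌊Q ^ κ⌋₊ + 1)).filter Nat.Prime,
        qv m (q p) ((p : ℂ) ^ (-s))) * L s with hw
      have h7 : ‖w - 1‖ ≤ 1 / 2 := h1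
      constructor
      · have h8 := norm_sub_norm_le (1 : ℂ) w
        rw [norm_one, norm_sub_rev] at h8
        linarith
      · have h8 := norm_sub_norm_le w (1 : ℂ)
        rw [norm_one] at h8
        linarith
    constructor
    · have h7 : Real.exp (-G) * Real.exp (-1) ≤ ‖L s‖ := by
        have h8 : 1 / 2 ≤ Real.exp G * ‖L s‖ :=
          h6.1.trans (mul_le_mul_of_nonneg_right h4 (norm_nonneg _))
        have h9 : Real.exp (-G) * (Real.exp G * ‖L s‖) = ‖L s‖ := by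
          rw [← mul_assoc, ← Real.exp_add]
          simp
        calc Real.exp (-G) * Real.exp (-1) ≤ Real.exp (-G) * (Real.exp G * ‖L s‖) :=
              mul_le_mul_of_nonneg_left (he2.trans h8) (Real.exp_pos _).le
          _ = ‖L s‖ := h9
      rw [← Real.exp_add] at h7
      exact (Real.exp_le_exp.2 (by linarith)).trans h7
    · have h7 : ‖L s‖ ≤ Real.exp G * Real.exp 1 := by
        have h8 : Real.exp (-G) * ‖L s‖ ≤ 3 / 2 :=
          (mul_le_mul_of_nonneg_right h5 (norm_nonneg _)).trans h6.2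
        have h9 : Real.exp G * (Real.exp (-G) * ‖L s‖) = ‖L s‖ := by
          rw [← mul_assoc, ← Real.exp_add]
          simp
        calc ‖L s‖ = Real.exp G * (Real.exp (-G) * ‖L s‖) := h9.symm
          _ ≤ Real.exp G * Real.exp 1 :=
              mul_le_mul_of_nonneg_left (h8.trans he3) (Real.exp_pos _).le
      rw [← Real.exp_add] at h7
      exact h7.trans (Real.exp_le_exp.2 (by linarith))
  · have h1 := hF lam L hE.one hl hLs s (by linarith)
    have hG0 : 0 ≤ C1 * G s := by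
      have := hgs
      positivity
    constructor
    · have h8 := norm_sub_norm_le (1 : ℂ) (L s)
      rw [norm_one, norm_sub_rev] at h8
      have h9 : Real.exp (-((C1 + 1) * G s)) ≤ Real.exp (-1) :=
        Real.exp_le_exp.2 (by linarith)
      linarith
    · have h8 := norm_sub_norm_le (L s) (1 : ℂ)
      rw [norm_one] at h8
      have h9 : Real.exp 1 ≤ Real.exp ((C1 + 1) * G s) :=
        Real.exp_le_exp.2 (by linarith)
      linarith

end Pool.Agent.H95.LX
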