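import Pool.Agent.H20.LX.T2
import Pool.Agent.H95.LX.NZG

/-!
# Page lx, row NZX: the logarithm of the L-function
-/

set_option autoImplicit false

namespace Pool.Agent.H95.LX

open Finset Pool.Agent.H27.ZF Pool.Agent.H20.LX

/-- monotonicity of the bounds for the Dirichlet polynomials -/
theorem dx_mono {lam : ℕ → ℂ} {Q z0 z A A' : ℝ} {s : ℂ} (h : A ≤ A') (hS : Dx lam Q z0 z A s) :
    Dx lam Q z0 z A' s := by
  intro j h1 h2
  refine (hS j h1 h2).trans (mul_le_mul_of_nonneg_right h ?_)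
  unfold bx
  positivity

/-- the size is at least `1` and increasing in `e` -/
theorem hx_facts {e e' Q : ℝ} (he : 0 < e') (hee : e' ≤ e) (hQ : 1 ≤ Q) (s : ℂ) :
    1 ≤ hx e' Q s ∧ hx e' Q s ≤ hx e Q s := by
  have h1 : 0 ≤ Real.log Q := Real.log_nonneg hQ
  have h2 : 0 ≤ max (1 - s.re) 0 := le_max_right _ _
  exact ⟨Real.one_le_rpow (by linarith) (by linarith),
    Real.rpow_le_rpow_of_exponent_le (by linarith) (by linarith)⟩

theorem pf_NZX (hPRX : T_PRX) (hHTC : T_HTC) (hEPR : T_EPR) (hTAI : T_TAI) : T_NZX := by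
  intro m d e C0 hm hd hd2 he hC0
  have hmR : (1 : ℝ) ≤ m := by exact_mod_cast hm
  obtain ⟨B, hB1, hgen⟩ := log_gen hHTC hEPR hTAI m d C0 hm hd hd2 hC0
  set e' : ℝ := min e (d / 4) with he'
  have he'0 : 0 < e' := lt_min he (by linarith)
  have he'e : e' ≤ e := min_le_left _ _
  have he'd : e' ≤ d / 4 := min_le_right _ _
  obtain ⟨c1, e1, C1, Q1, hc1, he1, hC1, hQ1, hP⟩ := hPRX m (d / 2) e' B hm (by linarith)
    (by linarith) he'0 (by linarith) hB1
  refine ⟨e1, B, he1, hB1, ?_⟩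
  intro κ hκ hκm
  obtain ⟨η, hη, hg⟩ := hgen κ hκ
  obtain ⟨Q2, hQ2, hg2⟩ := hg C1 (1 / 2) hC1 (by norm_num)
  refine ⟨min c1 η, C1 + 1, Q1 + Q2, lt_min hc1 hη, by linarith, by linarith, ?_⟩
  intro lam q L Q t hQ hE hl hL hLs hRb hbox s hs hst
  have hQQ1 : Q1 ≤ Q := by linarith
  have hQQ2 : Q2 ≤ Q := by linarith
  have hQ1' : 1 ≤ Q := by linarith
  have hQ0 : 0 < Q := by linarith
  have hlog : 0 ≤ Real.log Q := Real.log_nonneg hQ1'
  have hz : (Q ^ κ) ^ (4 * m) ≤ Q := by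
    rw [← Real.rpow_natCast, ← Real.rpow_mul hQ0.le]
    have h1 : κ * ((4 * m : ℕ) : ℝ) ≤ 1 := by
      push_cast
      rw [le_div_iff₀ (by positivity)] at hκm
      linarith
    calc Q ^ (κ * ((4 * m : ℕ) : ℝ)) ≤ Q ^ (1 : ℝ) := Real.rpow_le_rpow_of_exponent_le hQ1' h1
      _ = Q := Real.rpow_one Q
  have h := hg2 lam q L Q t hQQ2 hE hl hL hLs (fun u => hx e' Q u)
    (fun u => (hx_facts he'0 he'e hQ1' u).1)
    (fun u hu => by
      refine Real.rpow_le_rpow_of_exponent_le (by linarith) ?_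
      have : max (1 - u.re) 0 ≤ 1 / 2 - d / 2 := max_le (by linarith) (by linarith)
      linarith)
    (fun u h1 h2 h3 => by
      have h4 := hbox u h1 h2 h3
      refine ⟨h4.1.trans (Real.rpow_le_rpow_of_exponent_le hQ1' (min_le_right _ _)), ?_⟩
      exact hP lam q Q (Q ^ κ) hQQ1 hE hz hRb u h1 h2
        (dx_mono (Real.rpow_le_rpow_of_exponent_le hQ1' (min_le_left _ _)) h4.2))
    s hs hst
  have h5 : (C1 + 1) * hx e' Q s ≤ (C1 + 1) * hx e Q s :=
    mul_le_mul_of_nonneg_left (hx_facts he'0 he'e hQ1' s).2 (by linarith)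
  exact ⟨(Real.exp_le_exp.2 (neg_le_neg h5)).trans h.1, h.2.trans (Real.exp_le_exp.2 h5)⟩

end Pool.Agent.H95.LX
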